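import Mathlib
import Pool.Agent.N229.HF.RatMain3
import Pool.Agent.N229.HF.Unif

/-!
# All random rational maps with independent zeros and poles of bounded density are hyperbolic

The zeros and the poles are independent, not necessarily identically distributed, with laws of
bounded density and bounded support; these laws may coincide. The only hypothesis is that the value
`a` at infinity is exponentially large or exponentially small. In particular most of the
perturbations of the zeros and poles of any given rational map of large degree with such a value at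
infinity are hyperbolic.
-/

set_option autoImplicit false

open Polynomial Filter Topology MeasureTheory

namespace Pool.Agent.Results.MP_8f2e1c_an.AllLawsOfZerosPoles

/-- `P / Q` is in lowest terms and every critical point (point of the Riemann sphere where the map
is not locally injective) has an orbit converging to an attracting periodic cycle. This is word
for word the condition of the frozen statement `S05373`. -/
def Hyperbolic (P Q : Polynomial ℂ) : Prop :=
  IsCoprime P Q ∧ ∃ f : OnePoint ℂ → OnePoint ℂ, Continuous f ∧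
    (∀ z : ℂ, Q.eval z ≠ 0 →
      f (OnePoint.some z) = OnePoint.some (P.eval z / Q.eval z)) ∧
    ∀ c : OnePoint ℂ, (¬ ∃ U ∈ nhds c, Set.InjOn f U) →
      ∃ z : OnePoint ℂ, ∃ n : ℕ, 0 < n ∧ f^[n] z = z ∧
        (∃ U ∈ nhds z, ∀ w ∈ U,
          Filter.Tendsto (fun k : ℕ => f^[n * k] w) Filter.atTop (nhds z)) ∧
        Filter.Tendsto (fun k : ℕ => f^[n * k] c) Filter.atTop (nhds z)

/-- The monic polynomial with roots `z i`. -/
noncomputable def withRoots {n : ℕ} (z : Fin n → ℂ) : ℂ[X] := ∏ i, (X - C (z i))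

/-- The laws of the zeros and poles: probability measures with density at most `D` (with respect to
the area) and support in the disc `|z| ≤ R`. -/
structure Law (D R : ℝ) (μ : Measure ℂ) : Prop where
  prob : IsProbabilityMeasure μ
  density : ∀ B : Set ℂ, MeasurableSet B → μ B ≤ ENNReal.ofReal D * volume B
  support : μ (Metric.closedBall (0 : ℂ) R)ᶜ = 0

theorem dens_of {D R : ℝ} {μ : Measure ℂ} (h : Law D R μ) : Pool.Agent.N229.RL.Dens μ D R := by
  have := h.prob
  refine ⟨h.prob, ?_, ?_, h.density, h.support⟩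
  · by_contra hD
    rw [not_le] at hD
    have h1 := h.density Set.univ MeasurableSet.univ
    rw [ENNReal.ofReal_eq_zero.2 hD.le, zero_mul, measure_univ] at h1
    exact absurd h1 (by simp)
  · by_contra hR
    rw [not_le] at hR
    have h1 := h.support
    rw [Metric.closedBall_eq_empty.2 hR, Set.compl_empty, measure_univ] at h1
    exact one_ne_zero h1

theorem nu_inv (K : ℝ) (N : ℕ) :
    K * (Pool.Agent.N229.HF.nu N)⁻¹ = K / (N : ℝ) ^ (1 / 256 : ℝ) := by
  unfold Pool.Agent.N229.HF.nu
  exact (div_eq_mul_inv K _).symm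

/-- (1) For all `R`, `D` and `κ > 0` there is a constant `K` such that for every degree `n ≥ 2`, all
laws `μ 1, …, μ n`, `ν 1, …, ν n` of density at most `D` on the disc `|z| ≤ R` and all `a ≠ 0` with
`κ n ≤ |log |a||` the rational map of degree `n` with value `a` at infinity, independent zeros of
the laws `μ i` and independent poles of the laws `ν i` is hyperbolic outside an event of probability
at most `K / n ^ (1 / 256)`.

(2) In particular, for all `R`, `ε > 0` and `κ > 0` there is `K` such that for all `n ≥ 2`, all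
points `z i` and `p i` in the disc `|z| ≤ R` (some of the `z i` may be equal to some of the `p i`)
and all `a ≠ 0` with `κ n ≤ |log |a||` the rational map with zeros `w i`, poles `q i` and value `a`
at infinity is hyperbolic for all perturbations `w` of `z` and `q` of `p` by at most `ε`, outside a
subset of the polydisc `{(w, q) : |w i - z i| ≤ ε, |q i - p i| ≤ ε}` whose volume is at most
`K / n ^ (1 / 256)` times that of the polydisc. -/
theorem result :
    (∀ R D κ : ℝ, 0 < κ → ∃ K : ℝ, 0 < K ∧ ∀ n : ℕ, 2 ≤ n →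
      ∀ (μ ν : Fin n → Measure ℂ) (a : ℂ), (∀ i, Law D R (μ i)) → (∀ i, Law D R (ν i)) → a ≠ 0 →
        κ * n ≤ |Real.log ‖a‖| →
        ((Measure.pi μ).prod (Measure.pi ν))
          {x | ¬ Hyperbolic (C a * withRoots x.1) (withRoots x.2)} ≤
          ENNReal.ofReal (K / (n : ℝ) ^ (1 / 256 : ℝ))) ∧
    (∀ R ε κ : ℝ, 0 < ε → 0 < κ → ∃ K : ℝ, 0 < K ∧ ∀ n : ℕ, 2 ≤ n →
      ∀ (z p : Fin n → ℂ) (a : ℂ), (∀ i, ‖z i‖ ≤ R) → (∀ i, ‖p i‖ ≤ R) → a ≠ 0 →
        κ * n ≤ |Real.log ‖a‖| →
        volume {x : (Fin n → ℂ) × (Fin n → ℂ) |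
          ¬ Hyperbolic (C a * withRoots x.1) (withRoots x.2) ∧
          (∀ i, ‖x.1 i - z i‖ ≤ ε) ∧ ∀ i, ‖x.2 i - p i‖ ≤ ε} ≤
          ENNReal.ofReal (K / (n : ℝ) ^ (1 / 256 : ℝ)) *
            volume {x : (Fin n → ℂ) × (Fin n → ℂ) |
              (∀ i, ‖x.1 i - z i‖ ≤ ε) ∧ ∀ i, ‖x.2 i - p i‖ ≤ ε}) := by
  constructor
  · intro R D κ hκ
    obtain ⟨K, hK, h⟩ := Pool.Agent.N229.HF.rat_general3 R D κ hκ
    refine ⟨K, hK, fun n hn μ ν a hμ hν ha hl => ?_⟩
    refine (h n hn μ ν a (fun i => dens_of (hμ i)) (fun i => dens_of (hν i)) ha hl).trans_eq ?_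
    rw [nu_inv]
  · intro R ε κ hε hκ
    obtain ⟨K, hK, h⟩ := Pool.Agent.N229.HF.rat_general3 (R + ε) ((Real.pi * ε ^ 2)⁻¹) κ hκ
    refine ⟨K, hK, fun n hn z p a hz hp ha hl => ?_⟩
    have hB : {x : (Fin n → ℂ) × (Fin n → ℂ) |
        (∀ i, ‖x.1 i - z i‖ ≤ ε) ∧ ∀ i, ‖x.2 i - p i‖ ≤ ε} =
        Pool.Agent.N229.HF.pdisc ε z ×ˢ Pool.Agent.N229.HF.pdisc ε p := by
      ext w
      simp only [Pool.Agent.N229.HF.pdisc, Set.mem_ofPred_eq, Set.mem_pi, Set.mem_univ,
        forall_true_left, mem_closedBall_iff_norm, Set.mem_prod]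
    have h1 := h n hn (fun i => Pool.Agent.N229.HF.uni ε (z i))
      (fun i => Pool.Agent.N229.HF.uni ε (p i)) a
      (fun i => Pool.Agent.N229.HF.dens_uni hε (hz i))
      (fun i => Pool.Agent.N229.HF.dens_uni hε (hp i)) ha hl
    have h2 := Pool.Agent.N229.HF.unif_prod z p hε
      {x : (Fin n → ℂ) × (Fin n → ℂ) | ¬ Hyperbolic (C a * withRoots x.1) (withRoots x.2)}
    rw [← hB] at h2
    refine h2.le.trans (mul_le_mul_left (h1.trans_eq ?_) _)
    rw [nu_inv]

end Pool.Agent.Results.MP_8f2e1c_an.AllLawsOfZerosPoles
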