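import Mathlib
import Pool.Prelude.Def_F_c31e40fa
import Pool.Agent.N772.FU.Num
import Pool.Agent.N772.FU.Fin
import Pool.Agent.N772.TC.Area
import Pool.Agent.R240.Growth

/-!
# All polynomials are renormalisations of rational maps near `z ^ d + c₀`

Let `c₀` be a parameter of the Multibrot set `M` of degree `d ≥ 2` at which the critical value of
`z ^ d + c₀` has a Lyapunov exponent `χ > 0` (this holds, with `χ = log d`, at almost every point of
the boundary of `M` with respect to the harmonic measure). In the space of all rational maps of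
degree `d`, of dimension `2 d + 1`, we consider the maps near `z ^ d + c₀`.

**Theorem.** Exponentially many superattracting parameters `c` of period `n` converge to `c₀`, and in
a disc of exponentially small radius about `c` all rational maps `g = A / B + k` close to `z ^ d + c`
are described: after a change of coordinates of size `m` in the plane, `g ^ n` is exponentially close
to the polynomial `z ^ d + q₁ z + ⋯ + q_(d-1) z ^ (d-1) + t` on an exponentially large disc, and all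
the polynomials of degree `d`, with exponentially large coefficients, occur, for each small
perturbation `B` of `1`. The attracting cycles and their multipliers are those of the polynomial; if
the polynomial is hyperbolic with a connected Julia set then `g` is hyperbolic. The same is true at
most superattracting parameters `c` of period `n`.
-/

set_option autoImplicit false

open Polynomial Filter Metric Topology Set

namespace Pool.Agent.Results.MP_8f2e1c_an.FullUniversality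

open N62a1eb23

/-- `P / Q` is in lowest terms and every critical point (point of the Riemann sphere where the map
is not locally injective) has an orbit converging to an attracting periodic cycle. This is word
for word the condition of the frozen statement `S05373`. -/
def Hyperbolic (P Q : Polynomial ℂ) : Prop :=
  IsCoprime P Q ∧ ∃ f : OnePoint ℂ → OnePoint ℂ, Continuous f ∧
    (∀ z : ℂ, Q.eval z ≠ 0 →
      f (OnePoint.some z) = OnePoint.some (P.eval z / Q.eval z)) ∧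
    ∀ c : OnePoint ℂ, (¬ ∃ U ∈ nhds c, Set.InjOn f U) →
      ∃ z : OnePoint ℂ, ∃ n : ℕ, 0 < n ∧ f^[n] z = z ∧
        (∃ U ∈ nhds z, ∀ w ∈ U,
          Filter.Tendsto (fun k : ℕ => f^[n * k] w) Filter.atTop (nhds z)) ∧
        Filter.Tendsto (fun k : ℕ => f^[n * k] c) Filter.atTop (nhds z)

/-- The polynomial `z ^ d + c`. -/
def f (d : ℕ) (c : ℂ) : ℂ → ℂ := fun z => z ^ d + c

/-- The superattracting parameters of exact period `n`: the critical point `0` of `z ^ d + c` is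
periodic with least period `n`. -/
def centres (d n : ℕ) : Set ℂ := {c | Function.minimalPeriod (f d c) 0 = n}

/-- The critical orbit as a function of the parameter. -/
def crit (d n : ℕ) (c : ℂ) : ℂ := (f d c)^[n] 0

/-- The polynomial `z ^ d + q₁ z + ⋯ + q_(d-1) z ^ (d-1) + t`: up to a translation of the plane,
these are all the monic polynomials of degree `d` (twice or more). -/
def poly (d : ℕ) (q : Fin (d - 1) → ℂ) (t : ℂ) : ℂ → ℂ :=
  fun z => z ^ d + ∑ i, q i * z ^ (i.1 + 1) + t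

/-- The numerator `A = z ^ d + ∑ q_i m ^ (d - i) z ^ i`, `i = 1, …, d - 1`. -/
noncomputable def upper (d : ℕ) (m : ℂ) (q : Fin (d - 1) → ℂ) : ℂ[X] :=
  X ^ d + ∑ i, C (q i * m ^ (d - 1 - i.1)) * X ^ (i.1 + 1)

/-- The denominator `B = 1 + ∑ s_i z ^ i`, `i = 1, …, d`. -/
noncomputable def lower (d : ℕ) (s : Fin d → ℂ) : ℂ[X] := 1 + ∑ i, C (s i) * X ^ (i.1 + 1)

/-- The rational map `A / B + k = (A + k B) / B`. -/
noncomputable def map (A B : ℂ[X]) (k : ℂ) : ℂ → ℂ := fun y => A.eval y / B.eval y + k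

/-- `A / B + k` is `e`-close to `z ^ d + c`, of degree exactly `d`, and without poles in the disc of
radius `10`. -/
def Near (d : ℕ) (c : ℂ) (e : ℝ) (A B : ℂ[X]) (k : ℂ) : Prop :=
  (∀ i, ‖(A - X ^ d).coeff i‖ ≤ e) ∧ (∀ i, ‖(B - 1).coeff i‖ ≤ e) ∧ ‖k - c‖ ≤ e ∧
    IsCoprime (A + C k * B) B ∧ max (A + C k * B).natDegree B.natDegree = d ∧
    ∀ y : ℂ, ‖y‖ ≤ 10 → B.eval y ≠ 0

/-- `Q` is the renormalisation of `g ^ n`: this map, in the coordinate `z / m`, is `1 / R`-close to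
`Q` on the disc `|z| ≤ R`; the orbits of the points `m z` stay in the disc of radius `4` and return
to the disc of radius `R |m|` at time `n` at the earliest. -/
def Renormalises (g Q : ℂ → ℂ) (m : ℂ) (n : ℕ) (R : ℝ) : Prop :=
  ∀ z : ℂ, ‖z‖ ≤ R → ‖g^[n] (m * z) / m - Q z‖ ≤ 1 / R ∧ (∀ j ≤ n, ‖g^[j] (m * z)‖ ≤ 4) ∧
    ∀ j, 0 < j → j < n → R * ‖m‖ < ‖g^[j] (m * z)‖

/-- The periodic points `a` of `Q` with period `p` and multiplier at most `1 - ε` in absolute value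
give periodic points of `g` near `m a`, with period multiplied by `n` and nearly the same
multiplier, and with an orbit in the disc of radius `4`. -/
def Cycles (g Q : ℂ → ℂ) (m : ℂ) (n p : ℕ) (ε : ℝ) : Prop :=
  ∀ a : ℂ, Q^[p] a = a → ‖deriv (Q^[p]) a‖ ≤ 1 - ε → ∃ α : ℂ, ‖α / m - a‖ ≤ ε ∧
    Function.minimalPeriod g α = n * Function.minimalPeriod Q a ∧
    ‖deriv (g^[n * p]) α - deriv (Q^[p]) a‖ ≤ ε ∧ ∀ j, ‖g^[j] α‖ ≤ 4

/-- All critical points in the plane of the polynomial `Q` are attracted by attracting cycles in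
the plane: `Q` is hyperbolic and its Julia set is connected. -/
def Captured (Q : ℂ → ℂ) : Prop :=
  ∀ w : ℂ, deriv Q w = 0 → ∃ (p : ℕ) (a : ℂ), 0 < p ∧ Q^[p] a = a ∧ ‖deriv (Q^[p]) a‖ < 1 ∧
    Tendsto (fun k : ℕ => Q^[p * k] w) atTop (𝓝 a)

/-- The scales: `m` in the plane, `l` for the constant terms. They are explicit, and
`|m| = exp (- (χ / (d - 1) ± η) n)`, `|l| = exp (- (χ d / (d - 1) ± η) n)`. -/
def Scales (d n : ℕ) (c m l : ℂ) (χ η : ℝ) : Prop :=
  m ≠ 0 ∧ l ≠ 0 ∧ m ^ (d - 1) * deriv ((f d c)^[n - 1]) c = 1 ∧ l * deriv (crit d n) c = m ∧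
    |-Real.log ‖m‖ / n - χ / (d - 1)| ≤ η ∧ |-Real.log ‖l‖ / n - χ * d / (d - 1)| ≤ η

/-- The family of all rational maps near `z ^ d + c` is universal, on the scales
`R = exp (δ n)`, `exp (- η n)`. `D` is a set of polynomials. -/
def Universal (d : ℕ) (χ η δ : ℝ) (D : Set ((Fin (d - 1) → ℂ) × ℂ)) (p : ℕ) (ε : ℝ) (n : ℕ)
    (c : ℂ) : Prop :=
  ∃ m l : ℂ, Scales d n c m l χ η ∧
    ∀ (q : Fin (d - 1) → ℂ) (s : Fin d → ℂ), (∀ i, ‖q i‖ ≤ Real.exp (δ * n)) →
      (∀ i, ‖s i‖ ≤ Real.exp (-(η * n))) →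
      ∃ b : ℂ, ‖b‖ ≤ Real.exp (-(δ * n)) ∧ ∀ t k : ℂ, ‖t‖ ≤ Real.exp (δ * n) →
        k = c + b + l * t →
        Near d c (Real.exp (-(δ * n))) (upper d m q) (lower d s) k ∧
        Renormalises (map (upper d m q) (lower d s) k) (poly d q t) m n (Real.exp (δ * n)) ∧
        ((q, t) ∈ D → Cycles (map (upper d m q) (lower d s) k) (poly d q t) m n p ε ∧
          ((∀ x ∈ D, Captured (poly d x.1 x.2)) →
            Hyperbolic (upper d m q + C k * lower d s) (lower d s)))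

open Pool.Agent.N772.TC Pool.Agent.N772.FU

theorem log_near' {x χ ε n : ℝ} (hn : 0 < n) (h1 : Real.exp (-((χ + ε) * n)) ≤ x)
    (h2 : x ≤ Real.exp (-((χ - ε) * n))) : |-Real.log x / n - χ| ≤ ε := by
  have hx : 0 < x := (Real.exp_pos _).trans_le h1
  have h3 := (Real.le_log_iff_exp_le hx).2 h1
  have h4 := (Real.log_le_iff_le_exp hx).2 h2
  rw [abs_le]
  constructor
  · have : χ - ε ≤ -Real.log x / n := by
      rw [le_div_iff₀ hn]
      linarith
    linarith
  · have : -Real.log x / n ≤ χ + ε := by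
      rw [div_le_iff₀ hn]
      linarith
    linarith

theorem poly_eq (d : ℕ) (q : Fin (d - 1) → ℂ) (t : ℂ) : poly d q t = QQ d (exq d q, t) := by
  funext z
  unfold poly QQ
  rw [Us_exq]

theorem map_eq (d : ℕ) (m : ℂ) (q : Fin (d - 1) → ℂ) (s : Fin d → ℂ) (k : ℂ) :
    map (upper d m q) (lower d s) k = gg d m (exq d q) (exs d s) k := by
  funext y
  unfold map upper lower gg Gs
  rw [upper_eq, upper_eval, lower_eq, denP_eval]

theorem num_eq (d : ℕ) (m : ℂ) (q : Fin (d - 1) → ℂ) (s : Fin d → ℂ) (k : ℂ) :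
    upper d m q + C k * lower d s = numP d (pp d m (exq d q)) (exs d s) k := by
  unfold upper lower numP
  rw [upper_eq, lower_eq]

/-- for compact sets of polynomials -/
theorem univ {d : ℕ} (hd : 2 ≤ d) {χ : ℝ} (hχ : 0 < χ) {η : ℝ} (hη : 0 < η) :
    ∃ δ : ℝ, 0 < δ ∧ ∀ c₀ : ℂ, Pool.Agent.Y298.CA.Lyap d χ c₀ →
      ∃ δ' : ℝ, 0 < δ' ∧ δ' < χ ∧
        (∀ᶠ n : ℕ in atTop, ∀ c : ℂ, Pool.Agent.H712R2.P d n c = 0 →
          ‖c - c₀‖ ≤ Real.exp (-((χ - δ') * n)) → c ∈ centres d n) ∧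
        ∀ D : Set ((Fin (d - 1) → ℂ) × ℂ), IsCompact D → ∀ p : ℕ, 0 < p → ∀ ε : ℝ, 0 < ε →
          ∀ᶠ n : ℕ in atTop, ∀ c ∈ centres d n, ‖c - c₀‖ ≤ Real.exp (-((χ - δ') * n)) →
            Universal d χ η δ D p ε n c := by
  have hdR : (2 : ℝ) ≤ d := by exact_mod_cast hd
  obtain ⟨δ₁, hδ₁, H⟩ := full hd hχ hη
  obtain ⟨δ, hδ⟩ : ∃ δ, δ = min δ₁ η / 2 := ⟨_, rfl⟩
  have hδ0 : 0 < δ := by rw [hδ]; positivity
  have l1 : 2 * δ ≤ δ₁ := by rw [hδ]; linarith [min_le_left δ₁ η]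
  have l2 : 2 * δ ≤ η := by rw [hδ]; linarith [min_le_right δ₁ η]
  refine ⟨δ, hδ0, fun c₀ h => ?_⟩
  obtain ⟨δ', hδ'0, hδ'χ, H'⟩ := H c₀ h
  refine ⟨δ', hδ'0, hδ'χ, ?_, ?_⟩
  · filter_upwards [H', eventually_ge_atTop 1] with n hn hn1 c hP hc
    obtain ⟨h1, -⟩ := hn c hP hc
    have h2 : Function.IsPeriodicPt (f d c) n 0 := hP
    have h3 : 0 < Function.minimalPeriod (f d c) 0 := h2.minimalPeriod_pos (by omega)
    have h4 : Function.minimalPeriod (f d c) 0 ≤ n := h2.minimalPeriod_le (by omega)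
    have h5 : ¬ Function.minimalPeriod (f d c) 0 < n := by
      intro h6
      exact h1 _ h3 h6 (Function.iterate_minimalPeriod (f := f d c) (x := (0 : ℂ)))
    exact le_antisymm h4 (not_lt.1 h5)
  · intro D hD p hp ε hε
    have hS : IsCompact ((fun x : (Fin (d - 1) → ℂ) × ℂ => (exq d x.1, x.2)) '' D) :=
      hD.image (exq_cont d)
    obtain ⟨R₁, η₁, hη₁, K₁⟩ := att_of_uni hd hS hp hε
    have K₂ : ∃ (R ε : ℝ), 0 < ε ∧ ((∀ x ∈ D, Captured (poly d x.1 x.2)) →
        ∀ x ∈ (fun x : (Fin (d - 1) → ℂ) × ℂ => (exq d x.1, x.2)) '' D,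
        ∀ (n : ℕ) (k m : ℂ) (s : ℕ → ℂ), 0 < n → m ≠ 0 → ‖m‖ ≤ ε →
        (∀ i, ‖s i‖ ≤ ε) → (∀ i, ‖pp d m x.1 i‖ ≤ ε) → ‖k‖ ≤ 3 →
        (∀ z : ℂ, ‖z‖ < R → (∀ j ≤ n, ‖(gg d m x.1 s k)^[j] (m * z)‖ ≤ 4) ∧
          ‖(gg d m x.1 s k)^[n] (m * z) - m * (Us d x.1 z + x.2)‖ ≤ ‖m‖ * ε) →
        Hyperbolic (numP d (pp d m x.1) s k) (denP d s)) := by
      by_cases hC : ∀ x ∈ D, Captured (poly d x.1 x.2)
      · obtain ⟨R₂, ε₂, hε₂, K⟩ := hyp_of_uni hd hS (by
          rintro _ ⟨x, hx, rfl⟩ w hw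
          have h1 := hC x hx w (by
            rw [poly_eq]
            have h2 : HasDerivAt (QQ d (exq d x.1, x.2)) (dU d (exq d x.1) w) w :=
              (hasDerivAt_Us d (exq d x.1) w).add_const x.2
            rw [h2.deriv]
            exact hw)
          rw [poly_eq] at h1
          exact h1)
        exact ⟨R₂, ε₂, hε₂, fun _ x hx n k m s a1 a2 a3 a4 a5 a6 a7 =>
          (K x hx n k m s a1 a2 a3 a4 a5 a6 a7).2.2⟩
      · exact ⟨1, 1, one_pos, fun h => absurd h hC⟩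
    obtain ⟨R₂, ε₂, hε₂, K₂⟩ := K₂
    -- the size of `exp (δ n)`
    obtain ⟨Λ, hΛ⟩ : ∃ Λ : ℝ, Λ = 4 + |R₁| + |R₂| + 1 / η₁ + 1 / ε₂ + 1000 * d * 10 ^ d :=
      ⟨_, rfl⟩
    have hΛ0 : 0 < Λ := by rw [hΛ]; positivity
    filter_upwards [H', eventually_ge_atTop 1,
      Pool.Agent.N253.MS.ev_lin hδ0 (Real.log Λ)] with n hn hn1 hn2 c hc hcc
    have hn0 : (0 : ℝ) < n := by exact_mod_cast hn1
    have hP : Pool.Agent.H712R2.P d n c = 0 := Pool.Agent.N896.MB.per_zero hc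
    obtain ⟨-, hne1, hne2, h1⟩ := hn c hP hcc
    have hc2 : ‖c‖ ≤ 2 := by
      have h2 := Pool.Agent.Y298.CA.bd_of_centre hd hn1 hP 1
      rwa [show Pool.Agent.H712R2.P d 1 c = c by
        unfold Pool.Agent.H712R2.P Pool.Agent.H712R2.fc
        rw [Function.iterate_one, zero_pow (by omega), zero_add]] at h2
    -- the scales
    obtain ⟨m, hm⟩ : ∃ m : ℂ, m ^ (d - 1) = (deriv ((f d c)^[n - 1]) c)⁻¹ :=
      IsAlgClosed.exists_pow_nat_eq _ (by omega)
    have hm1 : m ^ (d - 1) * deriv ((f d c)^[n - 1]) c = 1 := by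
      rw [hm]
      exact inv_mul_cancel₀ hne1
    obtain ⟨l, hl⟩ : ∃ l : ℂ, l = m / deriv (Pool.Agent.H712R2.P d n) c := ⟨_, rfl⟩
    have hl1 : l * deriv (Pool.Agent.H712R2.P d n) c = m := by
      rw [hl]
      exact div_mul_cancel₀ _ hne2
    obtain ⟨⟨a1, a2⟩, ⟨a3, a4⟩, a5, a6, a7⟩ := h1 m l hm1 hl1
    have hmn : 0 < ‖m‖ := (Real.exp_pos _).trans_le a1
    have hm0 : m ≠ 0 := norm_pos_iff.1 hmn
    have hl0 : l ≠ 0 := norm_pos_iff.1 ((Real.exp_pos _).trans_le a3)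
    -- the exponentials
    obtain ⟨E, hE⟩ : ∃ E, E = Real.exp (δ * n) := ⟨_, rfl⟩
    have hE0 : 0 < E := by rw [hE]; exact Real.exp_pos _
    have hΛE : Λ ≤ E := by rw [hE]; exact (Real.log_le_iff_le_exp hΛ0).1 hn2.le
    have hx0 : 0 < 1 / η₁ := by positivity
    have hx1 : 0 < 1 / ε₂ := by positivity
    have hx2 : (0 : ℝ) < 1000 * d * 10 ^ d := by positivity
    have hE4 : 4 ≤ E := by
      rw [hΛ] at hΛE
      linarith [abs_nonneg R₁, abs_nonneg R₂]
    have hER₁ : R₁ ≤ E := by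
      rw [hΛ] at hΛE
      linarith [le_abs_self R₁, abs_nonneg R₂]
    have hER₂ : R₂ ≤ E := by
      rw [hΛ] at hΛE
      linarith [abs_nonneg R₁, le_abs_self R₂]
    have hEη₁ : E⁻¹ ≤ η₁ := by
      have : 1 / η₁ ≤ E := by
        rw [hΛ] at hΛE
        linarith [abs_nonneg R₁, abs_nonneg R₂]
      rw [div_le_iff₀ hη₁] at this
      rw [inv_le_iff_one_le_mul₀ hE0]
      linarith
    have hEε₂ : E⁻¹ ≤ ε₂ := by
      have : 1 / ε₂ ≤ E := by
        rw [hΛ] at hΛE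
        linarith [abs_nonneg R₁, abs_nonneg R₂]
      rw [div_le_iff₀ hε₂] at this
      rw [inv_le_iff_one_le_mul₀ hE0]
      linarith
    have hEσ : d * (E⁻¹ * 10 ^ d) ≤ 1 / 1000 := by
      have : 1000 * d * 10 ^ d ≤ E := by
        rw [hΛ] at hΛE
        linarith [abs_nonneg R₁, abs_nonneg R₂]
      have h2 : d * (E⁻¹ * 10 ^ d) = (d * 10 ^ d) / E := by
        field_simp
      rw [h2, div_le_div_iff₀ hE0 (by norm_num)]
      linarith
    have hEi : Real.exp (-(δ * n)) = E⁻¹ := by rw [Real.exp_neg, hE]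
    obtain ⟨E₁, hE₁⟩ : ∃ E₁, E₁ = Real.exp (δ₁ * n) := ⟨_, rfl⟩
    have hE₁E : E ^ 2 ≤ E₁ := by
      rw [hE, hE₁, ← Real.exp_nat_mul]
      apply Real.exp_le_exp.2
      have : 2 * δ * n ≤ δ₁ * n := by gcongr
      push_cast
      linarith
    have hE₁i : Real.exp (-(δ₁ * n)) = E₁⁻¹ := by rw [Real.exp_neg, hE₁]
    have hE₁0 : 0 < E₁ := by rw [hE₁]; exact Real.exp_pos _
    have hEE : 4 * E ≤ E ^ 2 := by nlinarith
    have hE₁' : E₁⁻¹ ≤ E⁻¹ / 4 := by
      have : 4 * E ≤ E₁ := hEE.trans hE₁E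
      rw [div_eq_mul_inv, ← mul_inv]
      exact inv_anti₀ (by positivity) (by linarith)
    have hEle : E ≤ E₁ := by
      have : 4 * E ≤ E₁ := hEE.trans hE₁E
      linarith
    have hηE : Real.exp (-(η * n)) ≤ E⁻¹ := by
      rw [← hEi]
      apply Real.exp_le_exp.2
      have : δ * n ≤ η * n := by
        gcongr
        linarith
      linarith
    rw [← hE₁, hE₁i] at a5 a6
    have hmE : ‖m‖ ≤ E⁻¹ / E ^ 2 := by
      refine a5.trans ?_
      gcongr
    have hEinv1 : E⁻¹ ≤ 1 := by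
      rw [inv_le_one₀ hE0]
      linarith
    have hm1' : ‖m‖ ≤ E⁻¹ := by
      refine hmE.trans (div_le_self (by positivity) ?_)
      nlinarith
    have hm1'' : ‖m‖ ≤ 1 := hm1'.trans hEinv1
    refine ⟨m, l, ⟨hm0, hl0, hm1, hl1, log_near' hn0 a1 a2, ?_⟩, ?_⟩
    · rw [mul_div_assoc]
      exact log_near' hn0 a3 a4
    intro q s hq hs
    rw [← hE] at hq ⊢
    rw [hEi]
    obtain ⟨b, hb, hb'⟩ := a7 (exq d q) (exs d s)
      (exq_le (Real.exp_pos _).le fun i => (hq i).trans (by rw [← hE₁]; exact hEle))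
      (exs_le (Real.exp_pos _).le hs)
    rw [hE₁i] at hb
    refine ⟨b, hb.trans (hE₁'.trans ?_), ?_⟩
    · have : 0 < E⁻¹ := by positivity
      linarith
    intro t k ht hk
    -- the constant term
    have hlt : ‖l * t‖ ≤ E₁⁻¹ := by
      rw [norm_mul]
      calc ‖l‖ * ‖t‖ ≤ E₁⁻¹ / E₁ * E₁ := by
            gcongr
            exact ht.trans hEle
        _ = E₁⁻¹ := by field_simp
    have hkc : ‖k - c‖ ≤ E⁻¹ := by
      have h2 : k - c = b + l * t := by rw [hk]; ring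
      rw [h2]
      have h3 := norm_add_le b (l * t)
      have : 0 < E⁻¹ := by positivity
      linarith
    have hk3 : ‖k‖ ≤ 3 := by
      have h2 : k = c + (k - c) := by ring
      have h3 := norm_add_le c (k - c)
      rw [← h2] at h3
      linarith
    have hpp : ∀ i, ‖pp d m (exq d q) i‖ ≤ E⁻¹ := by
      intro i
      refine (pp_le hm1'' hE0.le (exq_le hE0.le hq) i).trans ?_
      calc E * ‖m‖ ≤ E * (E⁻¹ / E ^ 2) := by gcongr
        _ = (E ^ 2)⁻¹ := by field_simp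
        _ ≤ E⁻¹ := inv_anti₀ hE0 (by nlinarith)
    have hss : ∀ i, ‖exs d s i‖ ≤ E⁻¹ := fun i =>
      exs_le (by positivity) (fun j => (hs j).trans hηE) i
    obtain ⟨g1, g2, g3⟩ := cop_deg hd hpp hss hEσ hk3
    have hk' : k = c + (b + l * t) := by rw [hk, add_assoc]
    have huni := hb' t
    rw [← hk'] at huni
    refine ⟨⟨?_, ?_, hkc, ?_, ?_, ?_⟩, ?_, ?_⟩
    · intro i
      unfold upper
      rw [upper_eq]
      exact upper_coeff_le (by positivity) hpp i
    · intro i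
      unfold lower
      rw [lower_eq]
      exact lower_coeff_le (by positivity) hss i
    · rw [num_eq]
      unfold lower
      rw [lower_eq]
      exact g1
    · rw [num_eq]
      unfold lower
      rw [lower_eq]
      exact g2
    · intro y hy
      unfold lower
      rw [lower_eq, denP_eval]
      exact g3 y hy
    · intro z hz
      rw [map_eq, poly_eq]
      obtain ⟨u1, u2, u3⟩ := huni z (by rw [← hE₁]; exact ht.trans hEle)
        (by rw [← hE₁]; exact hz.trans hEle)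
      rw [hE₁i] at u3
      rw [← hE₁] at u2
      refine ⟨?_, u1, fun j hj0 hj => ?_⟩
      · have h2 : (gg d m (exq d q) (exs d s) k)^[n] (m * z) / m - QQ d (exq d q, t) z =
            ((gg d m (exq d q) (exs d s) k)^[n] (m * z) - m * (Us d (exq d q) z + t)) / m := by
          unfold QQ
          field_simp
        rw [h2, norm_div, div_le_iff₀ hmn]
        refine u3.trans ?_
        rw [mul_comm, one_div]
        gcongr
      · refine lt_of_le_of_lt ?_ (u2 j hj0 hj)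
        rw [mul_comm]
        gcongr
    · intro hD'
      have hmem : (exq d q, t) ∈ (fun x : (Fin (d - 1) → ℂ) × ℂ => (exq d x.1, x.2)) '' D :=
        ⟨(q, t), hD', rfl⟩
      have huni' : ∀ z : ℂ, ‖z‖ ≤ E → (∀ j ≤ n, ‖(gg d m (exq d q) (exs d s) k)^[j] (m * z)‖ ≤ 4) ∧
          (∀ j, 1 ≤ j → j < n → ‖m‖ * E ≤ ‖(gg d m (exq d q) (exs d s) k)^[j] (m * z)‖) ∧
          ‖(gg d m (exq d q) (exs d s) k)^[n] (m * z) - m * (Us d (exq d q) z + t)‖ ≤
            ‖m‖ * E⁻¹ := by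
        intro z hz
        obtain ⟨u1, u2, u3⟩ := huni z (by rw [← hE₁]; exact ht.trans hEle)
          (by rw [← hE₁]; exact hz.trans hEle)
        rw [hE₁i] at u3
        rw [← hE₁] at u2
        refine ⟨u1, fun j hj0 hj => ?_, ?_⟩
        · refine le_trans ?_ (u2 j hj0 hj).le
          gcongr
        · refine u3.trans ?_
          gcongr
      rw [map_eq, poly_eq]
      refine ⟨?_, ?_⟩
      · intro a ha hda
        obtain ⟨α, b1, b2, b3, b4⟩ := K₁ (exq d q, t) hmem a ha hda n k m (exs d s) (by omega) hm0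
          (fun y hy => g3 y (by linarith)) (by
            intro z hz
            obtain ⟨u1, u2, u3⟩ := huni' z (by linarith)
            refine ⟨u1, fun j hj0 hj => ?_, ?_⟩
            · refine le_trans ?_ (u2 j hj0 hj)
              gcongr
            · refine u3.trans ?_
              gcongr)
        refine ⟨α, ?_, b2, b3, b4⟩
        have h2 : α / m - a = (α - m * a) / m := by field_simp
        rw [h2, norm_div, div_le_iff₀ hmn]
        exact b1
      · intro hC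
        rw [num_eq]
        unfold lower
        rw [lower_eq]
        exact K₂ hC (exq d q, t) hmem n k m (exs d s) (by omega) hm0 (hm1'.trans hEε₂)
          (fun i => (hss i).trans hEε₂) (fun i => (hpp i).trans hEε₂) hk3 (by
            intro z hz
            obtain ⟨u1, u2, u3⟩ := huni' z (by linarith)
            refine ⟨u1, u3.trans ?_⟩
            gcongr)

/-- exponentially many centres -/
theorem many {d : ℕ} (hd : 2 ≤ d) {χ : ℝ} {c₀ : ℂ} (h : Pool.Agent.Y298.CA.Lyap d χ c₀) {δ' : ℝ}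
    (h0 : 0 < δ') (h1 : δ' < χ) (hex : ∀ᶠ n : ℕ in atTop, ∀ c : ℂ,
      Pool.Agent.H712R2.P d n c = 0 → ‖c - c₀‖ ≤ Real.exp (-((χ - δ') * n)) → c ∈ centres d n) :
    ∃ γ : ℝ, 0 < γ ∧ ∀ᶠ n : ℕ in atTop, Real.exp (γ * n) ≤
      ({c | c ∈ centres d n ∧ ‖c - c₀‖ ≤ Real.exp (-((χ - δ') * n))}.ncard : ℝ) := by
  have hχ := h.1
  have hd1 : (1 : ℝ) < d := by exact_mod_cast (by omega : 1 < d)
  have hL : 0 < Real.log d := Real.log_pos hd1
  have h2 := Pool.Agent.R240.growth hd h (β := χ - δ') (by linarith) (by linarith)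
  have h3 : 0 < (1 - (χ - δ') / χ) * Real.log d := by
    apply mul_pos _ hL
    rw [sub_pos, div_lt_one hχ]
    linarith
  refine ⟨(1 - (χ - δ') / χ) * Real.log d / 2, by positivity, ?_⟩
  filter_upwards [h2.eventually_const_lt (half_lt_self h3), hex, eventually_ge_atTop 1] with n
    hn hn' hn1
  have hn0 : (0 : ℝ) < n := by exact_mod_cast hn1
  rw [lt_div_iff₀ hn0] at hn
  obtain ⟨N, rfl⟩ : ∃ N, n = N + 1 := ⟨n - 1, by omega⟩
  have hsub : Pool.Agent.R240.Cen d (N + 1) c₀ (Real.exp (-((χ - δ') * (N + 1 : ℕ)))) ⊆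
      {c | c ∈ centres d (N + 1) ∧ ‖c - c₀‖ ≤ Real.exp (-((χ - δ') * (N + 1 : ℕ)))} := by
    rintro c ⟨hc1, hc2⟩
    rw [mem_ball, dist_eq_norm] at hc1
    exact ⟨hn' c hc2 hc1.le, hc1.le⟩
  have hfin : {c | c ∈ centres d (N + 1) ∧
      ‖c - c₀‖ ≤ Real.exp (-((χ - δ') * (N + 1 : ℕ)))}.Finite := by
    refine (Cn_fin hd (n := N + 1) (by omega)).subset ?_
    rintro c ⟨hc, -⟩
    exact hc
  have hle : ((Pool.Agent.R240.Cen d (N + 1) c₀
      (Real.exp (-((χ - δ') * (N + 1 : ℕ))))).ncard : ℝ) ≤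
      ({c | c ∈ centres d (N + 1) ∧
        ‖c - c₀‖ ≤ Real.exp (-((χ - δ') * (N + 1 : ℕ)))}.ncard : ℝ) := by
    exact_mod_cast ncard_le_ncard hsub hfin
  refine le_trans ?_ hle
  have hpos : (0 : ℝ) < (Pool.Agent.R240.Cen d (N + 1) c₀
      (Real.exp (-((χ - δ') * (N + 1 : ℕ))))).ncard := by
    by_contra hcon
    have h4 : ((Pool.Agent.R240.Cen d (N + 1) c₀
      (Real.exp (-((χ - δ') * (N + 1 : ℕ))))).ncard : ℝ) = 0 :=
      le_antisymm (not_lt.1 hcon) (by positivity)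
    rw [h4, Real.log_zero] at hn
    have : 0 < (1 - (χ - δ') / χ) * Real.log d / 2 * ((N + 1 : ℕ) : ℝ) := by positivity
    linarith
  exact (Real.le_log_iff_exp_le hpos).1 hn.le

theorem result (d : ℕ) (hd : 2 ≤ d) :
    -- near `z ^ d + c₀`, `c₀` a parameter with a Lyapunov exponent `χ > 0`
    (∀ χ η : ℝ, 0 < χ → 0 < η → ∃ δ : ℝ, 0 < δ ∧ ∀ c₀ ∈ multibrotSet d,
      Tendsto (fun n : ℕ => Real.log ‖deriv ((f d c₀)^[n]) c₀‖ / n) atTop (𝓝 χ) →
      ∃ δ' : ℝ, 0 < δ' ∧ δ' < χ ∧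
        (∃ γ : ℝ, 0 < γ ∧ ∀ᶠ n : ℕ in atTop, Real.exp (γ * n) ≤
          ({c | c ∈ centres d n ∧ ‖c - c₀‖ ≤ Real.exp (-((χ - δ') * n))}.ncard : ℝ)) ∧
        ∀ D : Set ((Fin (d - 1) → ℂ) × ℂ), IsCompact D → ∀ p : ℕ, 0 < p → ∀ ε : ℝ, 0 < ε →
          ∀ᶠ n : ℕ in atTop, ∀ c ∈ centres d n, ‖c - c₀‖ ≤ Real.exp (-((χ - δ') * n)) →
            Universal d χ η δ D p ε n c) ∧
    -- near `z ^ d + c` for most superattracting parameters `c` of period `n`
    (∀ η : ℝ, 0 < η → ∃ δ : ℝ, 0 < δ ∧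
      ∀ D : Set ((Fin (d - 1) → ℂ) × ℂ), IsCompact D → ∀ p : ℕ, 0 < p → ∀ ε : ℝ, 0 < ε →
        Tendsto (fun n : ℕ => ({c | c ∈ centres d n ∧
          Universal d (Real.log d) η δ D p ε n c}.ncard : ℝ) / (centres d n).ncard)
            atTop (𝓝 1)) := by
  obtain ⟨β, hβ⟩ := Pool.Agent.H713R2.exists_beta (d := d) hd
  have hψ := Pool.Agent.H713R2.exteriorMap_of_beta hβ
  have hd1 : (1 : ℝ) < d := by exact_mod_cast (by omega : 1 < d)
  refine ⟨?_, ?_⟩
  · intro χ η hχ hη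
    obtain ⟨δ, hδ, H⟩ := univ hd hχ hη
    refine ⟨δ, hδ, fun c₀ hc₀ hlim => ?_⟩
    have hL : Pool.Agent.Y298.CA.Lyap d χ c₀ := ⟨hχ, hc₀, hlim⟩
    obtain ⟨δ', h1, h2, h3, h4⟩ := H c₀ hL
    exact ⟨δ', h1, h2, many hd hL h1 h2 h3, h4⟩
  · intro η hη
    obtain ⟨δ, hδ, H⟩ := univ hd (Real.log_pos hd1) hη
    refine ⟨δ, hδ, fun D hD p hp ε hε => ?_⟩
    apply most_tendsto hd hψ (fun n c => Universal d (Real.log d) η δ D p ε n c)
    filter_upwards [ae_lyap hd hψ] with θ hθ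
    obtain ⟨δ', h1, h2, h3, h4⟩ := H _ hθ
    exact ⟨δ', h1, h4 D hD p hp ε hε⟩

end Pool.Agent.Results.MP_8f2e1c_an.FullUniversality
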