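import Mathlib
import Pool.Agent.N229.RL.RatMain

/-!
# Rational maps with independent random zeros and poles are hyperbolic

The zeros and the poles are independent, not necessarily identically distributed, with laws of
bounded density and bounded support; the leading factor is arbitrary. If zero is a regular value
of the mean of `log |f|` on the Riemann sphere and not its value at `0` and `∞`, then the rational
map `f` of degree `n` is hyperbolic outside an event of probability `O (log (n) ^ 4 / n)`.
-/

set_option autoImplicit false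

open Polynomial Filter Topology MeasureTheory

namespace Pool.Agent.Results.MP_8f2e1c_an.IndependentZerosPoles

/-- `P / Q` is in lowest terms and every critical point (point of the Riemann sphere where the map
is not locally injective) has an orbit converging to an attracting periodic cycle. This is word
for word the condition of the frozen statement `S05373`. -/
def Hyperbolic (P Q : Polynomial ℂ) : Prop :=
  IsCoprime P Q ∧ ∃ f : OnePoint ℂ → OnePoint ℂ, Continuous f ∧
    (∀ z : ℂ, Q.eval z ≠ 0 →
      f (OnePoint.some z) = OnePoint.some (P.eval z / Q.eval z)) ∧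
    ∀ c : OnePoint ℂ, (¬ ∃ U ∈ nhds c, Set.InjOn f U) →
      ∃ z : OnePoint ℂ, ∃ n : ℕ, 0 < n ∧ f^[n] z = z ∧
        (∃ U ∈ nhds z, ∀ w ∈ U,
          Filter.Tendsto (fun k : ℕ => f^[n * k] w) Filter.atTop (nhds z)) ∧
        Filter.Tendsto (fun k : ℕ => f^[n * k] c) Filter.atTop (nhds z)

/-- The monic polynomial with roots `z i`. -/
noncomputable def withRoots {n : ℕ} (z : Fin n → ℂ) : ℂ[X] := ∏ i, (X - C (z i))

/-- The laws of the zeros and poles: probability measures with density at most `D` (with respect to
the area) and support in the disc `|z| ≤ R`. -/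
structure Law (D R : ℝ) (μ : Measure ℂ) : Prop where
  prob : IsProbabilityMeasure μ
  density : ∀ B : Set ℂ, MeasurableSet B → μ B ≤ ENNReal.ofReal D * volume B
  support : μ (Metric.closedBall (0 : ℂ) R)ᶜ = 0

/-- The logarithmic potential. -/
noncomputable def potential (μ : Measure ℂ) (z : ℂ) : ℝ := ∫ w, Real.log ‖z - w‖ ∂μ

/-- The Cauchy transform (twice the complex derivative of the potential). -/
noncomputable def cauchy (μ : Measure ℂ) (z : ℂ) : ℂ := ∫ w, (z - w)⁻¹ ∂μ

/-- The mean of `log |f z|`, `f = a * withRoots (zeros) / withRoots (poles)`, for independent zeros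
of the laws `μ i` and poles of the laws `ν i`. -/
noncomputable def meanLog {n : ℕ} (μ ν : Fin n → Measure ℂ) (a z : ℂ) : ℝ :=
  Real.log ‖a‖ + (∑ i, potential (μ i) z - ∑ i, potential (ν i) z)

/-- The mean of `f' z / f z`. -/
noncomputable def meanCauchy {n : ℕ} (μ ν : Fin n → Measure ℂ) (z : ℂ) : ℂ :=
  ∑ i, cauchy (μ i) z - ∑ i, cauchy (ν i) z

theorem dens_of {D R : ℝ} {μ : Measure ℂ} (h : Law D R μ) : Pool.Agent.N229.RL.Dens μ D R := by
  have := h.prob
  refine ⟨h.prob, ?_, ?_, h.density, h.support⟩
  · by_contra hD
    rw [not_le] at hD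
    have h1 := h.density Set.univ MeasurableSet.univ
    rw [ENNReal.ofReal_eq_zero.2 hD.le, zero_mul, measure_univ] at h1
    exact absurd h1 (by simp)
  · by_contra hR
    rw [not_le] at hR
    have h1 := h.support
    rw [Metric.closedBall_eq_empty.2 hR, Set.compl_empty, measure_univ] at h1
    exact one_ne_zero h1

/-- (1) Let `R`, `D` and `κ > 0` be given. There is a constant `K` such that for every degree
`n ≥ 2`, all laws `μ 1, …, μ n`, `ν 1, …, ν n` of density at most `D` on the disc `|z| ≤ R` and all
`a ≠ 0` the following holds. Suppose that `κ n ≤ |meanLog z|` or `κ n ≤ |meanCauchy z|` for all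
complex `z` (quantitatively: zero is a regular value of the mean of `log |f|`), that
`κ n ≤ |meanLog 0|` and that `κ n ≤ |log |a||` (the value of `meanLog` at infinity). Then the
rational map of degree `n` with leading factor `a`, independent zeros of the laws `μ i` and
independent poles of the laws `ν i` is hyperbolic outside an event of probability at most
`K (log n) ^ 4 / n`.

(2) Let `μ`, `ν` be any compactly supported laws of bounded density on the plane, `t ≠ 0` real and
suppose that `t + potential μ - potential ν` does not vanish at the origin and has no zero at which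
its gradient vanishes. Then there is `K` such that for all `n ≥ 2` and all `a` of modulus
`exp (t n)` the rational map with leading factor `a`, `n` independent zeros of the law `μ` and `n`
independent poles of the law `ν` is hyperbolic outside an event of probability at most
`K (log n) ^ 4 / n`. -/
theorem result :
    (∀ R D κ : ℝ, 0 < κ → ∃ K : ℝ, 0 < K ∧ ∀ n : ℕ, 2 ≤ n →
      ∀ (μ ν : Fin n → Measure ℂ) (a : ℂ), (∀ i, Law D R (μ i)) → (∀ i, Law D R (ν i)) → a ≠ 0 →
        (∀ z : ℂ, κ * n ≤ |meanLog μ ν a z| ∨ κ * n ≤ ‖meanCauchy μ ν z‖) →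
        κ * n ≤ |meanLog μ ν a 0| → κ * n ≤ |Real.log ‖a‖| →
        ((Measure.pi μ).prod (Measure.pi ν))
          {x | ¬ Hyperbolic (C a * withRoots x.1) (withRoots x.2)} ≤
          ENNReal.ofReal (K * Real.log n ^ 4 / n)) ∧
    (∀ (μ ν : Measure ℂ) (D R t : ℝ), Law D R μ → Law D R ν → t ≠ 0 →
      t + (potential μ 0 - potential ν 0) ≠ 0 →
      (∀ z : ℂ, t + (potential μ z - potential ν z) = 0 → cauchy μ z ≠ cauchy ν z) →
      ∃ K : ℝ, 0 < K ∧ ∀ n : ℕ, 2 ≤ n → ∀ a : ℂ, ‖a‖ = Real.exp (t * n) →
        ((Measure.pi fun _ : Fin n => μ).prod (Measure.pi fun _ : Fin n => ν))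
          {x | ¬ Hyperbolic (C a * withRoots x.1) (withRoots x.2)} ≤
          ENNReal.ofReal (K * Real.log n ^ 4 / n)) := by
  constructor
  · intro R D κ hκ
    obtain ⟨K, hK, h⟩ := Pool.Agent.N229.RL.rat_general R D κ hκ
    refine ⟨K, hK, fun n hn μ ν a hμ hν ha hreg h0 hl => ?_⟩
    refine h n hn μ ν a (fun i => dens_of (hμ i)) (fun i => dens_of (hν i)) ha hl (fun z => ?_) ?_
    · rw [Pool.Agent.N229.RL.MU_cat, Pool.Agent.N229.RL.MG_cat]
      exact hreg z
    · rw [Pool.Agent.N229.RL.MU_cat]
      exact h0
  · intro μ ν D R t hμ hν ht h0 hreg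
    exact Pool.Agent.N229.RL.rat_iid (dens_of hμ) (dens_of hν) ht h0 hreg

end Pool.Agent.Results.MP_8f2e1c_an.IndependentZerosPoles
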