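import Mathlib
import Pool.Agent.R239.Fat.T8
import Pool.Agent.R239.Fat.T9
import Pool.Agent.R239.Fat.T12

set_option autoImplicit false

/-!
# Density of hyperbolicity for time-periodic perturbations of a rational map

For every rational map `f` of degree `d ≥ 2`, every `ε > 0` and every large `N` there are `N` rational
maps of degree `d`, each of them `ε`-close to `f`, whose composition is hyperbolic. The perturbed maps
are of the form `M ∘ f` with Moebius maps `M` close to the identity.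

The main theorem (for compositions `Comp` of sphere maps) is proved in the starting file
`Pool/Agent/R239/Fat/T8.lean`; no starting result states it.
-/

open Polynomial Filter Topology

namespace Pool.Agent.Results.MP_8f2e1c_an.PeriodicPerturbations

/-- `f` is the self-map of the Riemann sphere given by the rational function `P / Q` of degree `d`,
in lowest terms. -/
def IsRational (d : ℕ) (P Q : Polynomial ℂ) (f : OnePoint ℂ → OnePoint ℂ) : Prop :=
  IsCoprime P Q ∧ max P.natDegree Q.natDegree = d ∧ Continuous f ∧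
    ∀ z : ℂ, Q.eval z ≠ 0 → f (OnePoint.some z) = OnePoint.some (P.eval z / Q.eval z)

/-- Every critical point has an orbit converging to an attracting periodic cycle. This is word for
word the condition of the frozen statement `S05373`. -/
def Hyperbolic (f : OnePoint ℂ → OnePoint ℂ) : Prop :=
  ∀ c : OnePoint ℂ, (¬ ∃ U ∈ nhds c, Set.InjOn f U) →
    ∃ z : OnePoint ℂ, ∃ n : ℕ, 0 < n ∧ f^[n] z = z ∧
      (∃ U ∈ nhds z, ∀ w ∈ U,
        Filter.Tendsto (fun k : ℕ => f^[n * k] w) Filter.atTop (nhds z)) ∧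
      Filter.Tendsto (fun k : ℕ => f^[n * k] c) Filter.atTop (nhds z)

/-- The Moebius map `z ↦ (a z + b) / (c z + e)` with the matrix `N = ((a, b), (c, e))`. -/
noncomputable def moebius (N : (ℂ × ℂ) × (ℂ × ℂ)) : OnePoint ℂ → OnePoint ℂ
  | none => if N.2.1 = 0 then OnePoint.infty else OnePoint.some (N.1.1 / N.2.1)
  | some z => if N.2.1 * z + N.2.2 = 0 then OnePoint.infty
      else OnePoint.some ((N.1.1 * z + N.1.2) / (N.2.1 * z + N.2.2))

/-- The determinant of the matrix. -/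
def det (N : (ℂ × ℂ) × (ℂ × ℂ)) : ℂ := N.1.1 * N.2.2 - N.1.2 * N.2.1

/-- `g` is a perturbation of size less than `ε` of the map `f = P / Q` of degree `d`: it is `M ∘ f`
with a Moebius map `M`, with a matrix of determinant one which is `ε`-close to the unit matrix, and it
is a rational map of degree `d`, given in lowest terms by polynomials whose coefficients are
`ε`-close to those of `P` and `Q`. -/
def Perturbation (d : ℕ) (P Q : Polynomial ℂ) (f : OnePoint ℂ → OnePoint ℂ) (ε : ℝ)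
    (g : OnePoint ℂ → OnePoint ℂ) : Prop :=
  (∃ N : (ℂ × ℂ) × (ℂ × ℂ), det N = 1 ∧ ‖N.1.1 - 1‖ < ε ∧ ‖N.1.2‖ < ε ∧ ‖N.2.1‖ < ε ∧
    ‖N.2.2 - 1‖ < ε ∧ g = moebius N ∘ f) ∧
  ∃ P' Q' : Polynomial ℂ, IsRational d P' Q' g ∧
    ∀ j, ‖P'.coeff j - P.coeff j‖ < ε ∧ ‖Q'.coeff j - Q.coeff j‖ < ε

/-- The composition `g₁ ∘ g₂ ∘ ⋯ ∘ g_N` of the maps of a list. -/
def compose : List (OnePoint ℂ → OnePoint ℂ) → OnePoint ℂ → OnePoint ℂ
  | [] => id
  | g :: w => g ∘ compose w

open Pool.Agent.R239.Fat in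
theorem moebius_eq {N : (ℂ × ℂ) × (ℂ × ℂ)} (h : det N ≠ 0) :
    moebius N = mob N.1.1 N.1.2 N.2.1 N.2.2 := by
  have h' : N.1.1 * N.2.2 - N.1.2 * N.2.1 ≠ 0 := h
  funext x
  induction x using OnePoint.rec with
  | infty =>
    rw [mob_inf h']
    rfl
  | coe z =>
    show (if N.2.1 * z + N.2.2 = 0 then OnePoint.infty
      else OnePoint.some ((N.1.1 * z + N.1.2) / (N.2.1 * z + N.2.2))) = _
    split_ifs with h1
    · rw [mob_coe_inf h' h1]
    · rw [mob_coe h' h1]

open Pool.Agent.R239.Fat in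
theorem exists_list {p : (OnePoint ℂ → OnePoint ℂ) → Prop} {n : ℕ} {G : OnePoint ℂ → OnePoint ℂ}
    (h : Comp p n G) : ∃ w : List (OnePoint ℂ → OnePoint ℂ), w.length = n ∧ (∀ g ∈ w, p g) ∧
      compose w = G := by
  induction h with
  | zero => exact ⟨[], rfl, by simp, rfl⟩
  | succ _ hm ih =>
    obtain ⟨w, h1, h2, h3⟩ := ih
    refine ⟨_ :: w, by simp [h1], ?_, by rw [compose, h3]⟩
    intro g hg
    rcases List.mem_cons.1 hg with rfl | hg
    · exact hm
    · exact h2 g hg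

theorem exists_sp {d : ℕ} (hd : 1 ≤ d) {P Q : Polynomial ℂ} {g : OnePoint ℂ → OnePoint ℂ}
    (hg : IsRational d P Q g) :
    ∃ x : Pool.Agent.H790R3.RB.CV d, Pool.Agent.H790R3.RB.ND x ∧
      g = Pool.Agent.H790R3.RB.sp x := by
  obtain ⟨h1, h2, h3, h4⟩ := hg
  obtain ⟨x, hx, -, -, h5⟩ := (Pool.Agent.H790R3.RB.PQ Pool.Agent.H790R3.RB.SP d hd).2 P Q h1 h2
  exact ⟨x, hx, h5 _ h3 h4⟩

open Pool.Agent.R239.Fat in
theorem compose_sp {d : ℕ} (hd : 1 ≤ d) {y : Pool.Agent.H790R3.RB.CV d}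
    (hy : Pool.Agent.H790R3.RB.ND y) (w : List (OnePoint ℂ → OnePoint ℂ))
    (hw : ∀ g ∈ w, ∃ P Q, IsRational d P Q g) :
    ∃ z : Pool.Agent.H790R3.RB.CV (d ^ w.length), Pool.Agent.H790R3.RB.ND z ∧
      Pool.Agent.H790R3.RB.sp z = compose w := by
  induction w with
  | nil =>
    obtain ⟨z, hz, hz2⟩ := sp_iter hy 0
    exact ⟨z, hz, hz2⟩
  | cons g w ih =>
    obtain ⟨z, hz, hz2⟩ := ih fun h hh => hw h (List.mem_cons_of_mem _ hh)
    obtain ⟨P, Q, hg⟩ := hw g List.mem_cons_self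
    obtain ⟨x, hx, hgx⟩ := exists_sp hd hg
    obtain ⟨v, hv⟩ := exists_comp x z
    obtain ⟨h1, h2⟩ := sp_comp hx hz hv
    have e : d ^ (g :: w).length = d * d ^ w.length := by
      rw [List.length_cons, pow_succ, mul_comm]
    rw [e]
    refine ⟨v, h1, ?_⟩
    rw [h2, compose, hgx, hz2]

open Pool.Agent.R239.Fat in
/-- **Density of hyperbolicity for time-periodic perturbations.** Let `f = P / Q` be a rational map
of degree `d ≥ 2` and `ε > 0`. Then for all large `N` there are `N` perturbations of `f` of size less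
than `ε` (see `Perturbation`) such that their composition, a rational map of degree `d ^ N`, is
hyperbolic: all its critical points converge to attracting cycles. -/
theorem result (d : ℕ) (hd : 2 ≤ d) (P Q : Polynomial ℂ) (f : OnePoint ℂ → OnePoint ℂ)
    (hf : IsRational d P Q f) (ε : ℝ) (hε : 0 < ε) :
    ∃ N₀ : ℕ, ∀ N : ℕ, N₀ ≤ N → ∃ w : List (OnePoint ℂ → OnePoint ℂ), w.length = N ∧
      (∀ g ∈ w, Perturbation d P Q f ε g) ∧
      (∃ R S : Polynomial ℂ, IsRational (d ^ N) R S (compose w)) ∧ Hyperbolic (compose w) := by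
  obtain ⟨h1, h2, h3, h4⟩ := hf
  have hd1 : 1 ≤ d := by omega
  obtain ⟨x, hx, rfl, rfl, h5⟩ := (Pool.Agent.H790R3.RB.PQ Pool.Agent.H790R3.RB.SP d hd1).2
    P Q h1 h2
  have hfx := h5 _ h3 h4
  obtain ⟨M, hM0, hM⟩ := coeff_bound (Pool.Agent.H790R3.RB.pol x 0) (Pool.Agent.H790R3.RB.pol x 1)
  have hε' : 0 < ε / (2 * M + 1) := by positivity
  have hεle : ε / (2 * M + 1) ≤ ε := div_le_self hε.le (by linarith)
  have hεM : ε / (2 * M + 1) * M + ε / (2 * M + 1) * M < ε := by
    have e : ε / (2 * M + 1) * (2 * M + 1) = ε := by field_simp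
    nlinarith
  obtain ⟨N₀, hN₀⟩ := main hd hx hε'
  refine ⟨N₀, fun N hN => ?_⟩
  obtain ⟨G, hG, hyp⟩ := hN₀ N hN
  obtain ⟨w, hw1, hw2, hw3⟩ := exists_list hG
  have hper : ∀ g ∈ w, Perturbation d (Pool.Agent.H790R3.RB.pol x 0)
      (Pool.Agent.H790R3.RB.pol x 1) f ε g := by
    intro g hg
    obtain ⟨a, b, c, e, hdet, ha, hb, hc, he, hgm⟩ := hw2 g hg
    have hdet0 : a * e - b * c ≠ 0 := by rw [hdet]; exact one_ne_zero
    refine ⟨⟨((a, b), (c, e)), hdet, ha.trans_le hεle, hb.trans_le hεle, hc.trans_le hεle,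
      he.trans_le hεle, ?_⟩, C a * Pool.Agent.H790R3.RB.pol x 0 + C b * Pool.Agent.H790R3.RB.pol x 1,
      C c * Pool.Agent.H790R3.RB.pol x 0 + C e * Pool.Agent.H790R3.RB.pol x 1, ?_, fun j => ?_⟩
    · rw [moebius_eq (N := ((a, b), (c, e))) hdet0, hgm, hfx]
    · rw [hgm]
      exact ⟨coprime_comb' h1 hdet0, degree_comb' hd1 h2 hdet0,
        (mob_cont hdet0).comp (Pool.Agent.H790R3.RB.SP.sp_cont hx),
        fun z hz => mob_sp' hx hdet0 hz⟩
    · obtain ⟨hM1, hM2⟩ := hM j
      constructor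
      · have e1 : (C a * Pool.Agent.H790R3.RB.pol x 0 +
            C b * Pool.Agent.H790R3.RB.pol x 1).coeff j -
            (Pool.Agent.H790R3.RB.pol x 0).coeff j =
            (a - 1) * (Pool.Agent.H790R3.RB.pol x 0).coeff j +
              b * (Pool.Agent.H790R3.RB.pol x 1).coeff j := by
          rw [coeff_add, coeff_C_mul, coeff_C_mul]; ring
        rw [e1]
        have h8 := norm_add_le ((a - 1) * (Pool.Agent.H790R3.RB.pol x 0).coeff j)
          (b * (Pool.Agent.H790R3.RB.pol x 1).coeff j)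
        rw [norm_mul, norm_mul] at h8
        have h9 := mul_le_mul ha.le hM1 (norm_nonneg _) hε'.le
        have h10 := mul_le_mul hb.le hM2 (norm_nonneg _) hε'.le
        linarith
      · have e1 : (C c * Pool.Agent.H790R3.RB.pol x 0 +
            C e * Pool.Agent.H790R3.RB.pol x 1).coeff j -
            (Pool.Agent.H790R3.RB.pol x 1).coeff j =
            c * (Pool.Agent.H790R3.RB.pol x 0).coeff j +
              (e - 1) * (Pool.Agent.H790R3.RB.pol x 1).coeff j := by
          rw [coeff_add, coeff_C_mul, coeff_C_mul]; ring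
        rw [e1]
        have h8 := norm_add_le (c * (Pool.Agent.H790R3.RB.pol x 0).coeff j)
          ((e - 1) * (Pool.Agent.H790R3.RB.pol x 1).coeff j)
        rw [norm_mul, norm_mul] at h8
        have h9 := mul_le_mul hc.le hM1 (norm_nonneg _) hε'.le
        have h10 := mul_le_mul he.le hM2 (norm_nonneg _) hε'.le
        linarith
  subst hw1
  refine ⟨w, rfl, hper, ?_, ?_⟩
  · obtain ⟨z, hz, hz2⟩ := compose_sp hd1 hx w fun g hg => by
      obtain ⟨-, P', Q', h6, -⟩ := hper g hg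
      exact ⟨P', Q', h6⟩
    obtain ⟨h6, h7⟩ := Pool.Agent.H790R3.RB.PQ.part1 (Nat.one_le_pow _ _ (by omega)) z hz
    refine ⟨_, _, h6, h7, ?_, fun t ht => ?_⟩
    · rw [← hz2]; exact Pool.Agent.H790R3.RB.SP.sp_cont hz
    · rw [← hz2]; exact Pool.Agent.H790R3.RB.PQ.sp_eval z t ht
  · rw [hw3]
    exact hyp

end Pool.Agent.Results.MP_8f2e1c_an.PeriodicPerturbations
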